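import Pool.Agent.H854.SQ.BInst
import Pool.Agent.H854.SQ.Et
import Pool.Agent.H854.SQ.Deg
import Pool.Agent.H854.SQ.Diag

/-!
# The conjectures of Beilinson and of semisimplicity, and one statement for each member of one
# sequence of étale coverings of affine spaces over the field with `p` elements

For `n ≥ 1` let `G_n` be the following polynomial with integral coefficients (`univ`). A relation
`r` of size `n` is one of the equations `x_i x_j = x_l`, `x_i + x_j = x_l`, `x_i = 1` with
`i, j, l < n`. There are variables `x_i` and `z_ij` for `i, j < n`, and `c_r` for all relations `r`.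
The equations (`eqn`) are

  `z_ij - x_i x_j`,  `c_r ^ 2 - c_r`,  `c_r ρ_r`,

where `ρ_r` is the linear polynomial `z_ij - x_l`, `x_i + x_j - x_l` or `x_i - 1` of the relation.
`G_n` is the sum of the equations multiplied by further variables `t_e`, one for each equation; it is
a cubic polynomial. Let `Y_n` be the covering

  `Y_n : y ^ p - y = G_n`

of the affine space over the field `k` with `p` elements, of dimension `6 n ^ 3 + 2 n ^ 2 + 4 n`. It is
finite étale, with the group `ℤ / p`.

For the schemes `X` of finite type over `k` we consider the `ℓ`-adic homology `H_{2 n + m}(X, -n)`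
(of `X` base changed to an algebraic closure), with its long exact sequences and the Frobenius, the
higher Chow groups `CH_n(X, m)` with their long exact sequences, and the cycle class maps
`CH_n(X) ⊗ ℚ_ℓ → H_{2 n}(X, -n)`; the properties that are used are listed in `FTheory.IsValid`. For
smooth `X` of dimension `d` the group `H_{2 n}(X, -n)` is the cohomology group `H^{2 i}(X, i)` with
`i = d - n`, and `T.B X n` is the statement `B^i(X)` of the problem: the cycle class map is a bijection
to the classes fixed by the Frobenius (Q1), and the eigenvalue `1` of the Frobenius is semisimple (Q2).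
If `K` is a finite extension of `k`, then the theory over `K` belongs to the one over `k` (`FInduced`):
for `X` over `K` the homology of the scheme `X` over `k` is the induced module.

**Theorem.** The following are equivalent:

1. `B^i(Y_n)` for infinitely many `n` and the one number `i = 2 n ^ 3 + n ^ 2 + 2 n - ⌊n / 2⌋` (in terms
   of homology: the statement for the dimension `⌊n / 2⌋ + 4 n ^ 3 + n ^ 2 + 2 n`);
2. `B^i(X)` for all `i` and all smooth varieties `X` over `k`;
3. `B` for all, possibly singular, varieties over `k` and all its finite extensions.

Here the varieties are the schemes of finite type with an affine bundle whose total space is affine,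
by Jouanolou all quasi-projective schemes. So both questions, for all smooth (quasi-projective)
varieties over all finite fields of characteristic `p`, are questions on one explicit sequence of
étale coverings of affine spaces with the group `ℤ / p` over the prime field. Only one cohomology group
and one Chow group of each `Y_n` occur.

Idea of the proof. `G_n` is linear in the variables `t_e`; so the homology and the Chow groups of `Y_n`
are, up to shifts, those of `p - 1` copies of the zero set `W_n` of the equations (`AS.Config`): over
the complement of `W_n` the covering is an affine bundle, and over `W_n` it is the disjoint union of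
`p` bundles. The scheme `W_n` is the disjoint union over all sets `s` of relations (`c_r = 1` for `r`
in `s`, `c_r = 0` for the others) of the schemes defined by the equations in `s`.
Every affine scheme `Z` of finite type over the prime field is defined by relations of the three kinds in
`a` variables, for some `a`; then `Z × A^b` is defined by such relations in `n` variables if `n ≥ a + b`.
The groups of dimension `d` for `Z` are those of dimension `d + b` for `Z × A^b`. If `n` is large, then we
can take `b = ⌊n / 2⌋ - d`.
-/

set_option autoImplicit false

open CategoryTheory AlgebraicGeometry Pool.Agent.Y138.UC Pool.Agent.H854.AS Pool.Agent.H854.SQ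

universe u v

namespace Pool.Agent.Results.MP_81632f_ag.OneGroupForEachCovering

/-- The covering `P(y) = φ` of the spectrum of the `k`-algebra `R`, as a scheme over `k`. -/
noncomputable def covering {k : Type u} [Field k] (P : Polynomial k) {R : Type u} [CommRing R]
    [Algebra k R] (φ : R) : Sch k := aff k (Cov P φ)

/-- The covering `y ^ p - y = G_n` over the field `k`. -/
noncomputable def Y (k : Type u) [Field k] (p n : ℕ) : Sch k := covering (pol k p) (univ k n)

/-- The dimension that is considered on `Y_n`. -/
def index (n : ℕ) : ℕ := n / 2 + (4 * n ^ 3 + n ^ 2 + 2 * n)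

/-- The statement `B` in the one dimension `index n`, for infinitely many of the coverings `Y_n`
over `k`. -/
def BForInfinitelyMany {k : Type u} [Field k] {F : Type v} [Field F] (T : FTheory.{u, v} k F)
    (p : ℕ) : Prop := ∃ᶠ n in Filter.atTop, T.B (Y k p n) (index n)

theorem index_eq (n : ℕ) : ((index n : ℕ) : ℤ) = ((n / 2 : ℕ) : ℤ) + Fintype.card (Eqn n) := by
  have h : Fintype.card (Eqn n) = 4 * n ^ 3 + n ^ 2 + 2 * n := by
    simp only [Fintype.card_sum, Fintype.card_prod, Fintype.card_fin]
    ring
  rw [index, h, Nat.cast_add]

/-- The statements `B` for all varieties over `k` and over all finite extensions of `k`. -/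
def BForExtensions {k : Type u} [Field k] {F : Type v} [Field F] (T : FTheory.{u, v} k F) : Prop :=
  T.BFor IsAdmissible ∧
    ∀ (K : Type u) [Field K] [Algebra k K] [Module.Finite k K] (T' : FTheory.{u, v} K F),
      Nonempty (FInduced T T') → T'.BFor IsAdmissible

theorem isVariety_dn {k K : Type u} [Field k] [Field K] [Algebra k K] [hK : Module.Finite k K]
    {X : Sch K} (hX : IsVariety X) : IsVariety (dn k X) := by
  obtain ⟨h1, h2, h3⟩ := hX
  have h4 : LocallyOfFiniteType (Spec.map (CommRingCat.ofHom (algebraMap k K))) := by
    rw [HasRingHomProperty.Spec_iff (P := @LocallyOfFiniteType)]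
    exact (RingHom.finiteType_algebraMap).2 inferInstance
  refine ⟨?_, ?_, ?_⟩
  · change IsSeparated (X.hom ≫ _)
    infer_instance
  · change LocallyOfFiniteType (X.hom ≫ _)
    infer_instance
  · change QuasiCompact (X.hom ≫ _)
    infer_instance

theorem isAdmissible_dn {k K : Type u} [Field k] [Field K] [Algebra k K] [Module.Finite k K]
    {X : Sch K} (hX : IsAdmissible X) : IsAdmissible (dn k X) := by
  obtain ⟨vX, E, f, r, hf, hE, vE⟩ := hX
  exact ⟨isVariety_dn vX, dn k E, Over.homMk f.left (by
    change f.left ≫ X.hom ≫ _ = E.hom ≫ _
    rw [← Category.assoc, Over.w f]), r, hf, hE, isVariety_dn vE⟩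

/-- **Both questions are questions on one sequence of étale coverings of affine spaces.** -/
theorem result {k : Type u} [Field k] (hk : IsPrimeField k) (p : ℕ) [Fact p.Prime] [CharP k p]
    {F : Type v} [Field F] [CharZero F] (T : FTheory.{u, v} k F) (hT : T.IsValid) :
    List.TFAE [BForInfinitelyMany T p, T.BFor IsSmoothAdmissible, BForExtensions T] ∧
      ∀ n : ℕ, 0 < n → Smooth (Y k p n).hom ∧ IsFiniteEtale (pol k p) (univ k n) ∧
        (univ k n).totalDegree ≤ 3 := by
  refine ⟨?_, fun n hn => ⟨smooth_seq_prime p hn, isFiniteEtale_pol p _, totalDegree_univ k n⟩⟩
  tfae_have 1 → 3 := by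
    intro h
    have h0 : ∃ᶠ n in Filter.atTop, T.B (seq (pol k p) n)
        ((n / 2 : ℕ) + Fintype.card (Eqn n)) := h.mono fun n hn => by
      rw [← index_eq]
      exact hn
    have h1 : T.BFor IsAdmissible := fun X hX d =>
      (transfers_b hT).admissible_diag (pol_prime (k := k) p) hk h0 X hX d
    exact ⟨h1, fun K _ _ _ T' hI X hX n => hI.some.b hT X n (h1 _ (isAdmissible_dn hX) n)⟩
  tfae_have 3 → 2 := fun h X hX => h.1 X hX.1
  tfae_have 2 → 1 := by
    intro h
    refine Filter.Eventually.frequently ?_
    filter_upwards [Filter.eventually_gt_atTop 0] with n hn
    exact h _ ⟨isAdmissible_seq (pol_prime p) n, smooth_seq_prime p hn⟩ _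
  tfae_finish

end Pool.Agent.Results.MP_81632f_ag.OneGroupForEachCovering
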