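import Pool.Agent.H857.MX.Master
import Pool.Agent.H857.MX.Good
import Pool.Graph.R_pool_sql_team_seeded_2aa45f1a.Q64.L.Thms

/-!
# MP_81632f_ag: the conjectures of Beilinson and Tate for `A × X`, for arbitrary smooth varieties
`X` over finite fields, proper or not, and all abelian varieties `A` but a set of isogeny classes
of the exact order of magnitude of its size

Let `g i` (`i` in a finite set `I`) be positive integers. For a prime power `q = p ^ a` let
`families g p a` be the finite set of the families `f i` of Weil polynomials of degrees `2 g i`
relative to `q` with integral Newton polygons. It contains the families of the characteristic
polynomials of the Frobenius endomorphisms of abelian varieties `A i` of dimensions `g i` over the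
field with `q` elements (Weil), which determine the `A i` up to isogeny (Tate). It has about `q ^
(∑ g i (g i + 1) / 4)` elements.

Let the `ρ k` be `r` Weil numbers of weights less than `c` with slopes in `(1 / D) ℤ`, for
instance the eigenvalues of Frobenius on the `ℓ`-adic cohomology of a variety over the field with
`q` elements. The family `f` is exceptional if there is a multiplicative relation between roots of
the `f i`, the numbers `ρ k` and `q`, up to roots of unity, which does not come from the pairs of
conjugate roots `z`, `q / z`.

1. The proportion of the exceptional families among all the families is of the exact order of
magnitude `∑ q ^ (- δ (g i) / 2)`, where `δ (g) = g` for `g ≠ 2` and `δ (2) = 1`: it is at most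
`C` times, and at least `1 / C` times this sum. The constant `C` depends only on the `g i`, on
`r`, `c` and `D` - not on `p`, `q` and the `ρ k`.

2. Let `f` be a family which is not exceptional, and let `A` be an abelian variety over the field
with `Q = q ^ s` elements, `s > 0`, which is isogenous to a product of powers of abelian varieties
`A i` with characteristic polynomials `f i`. Let `X` be **any** smooth variety, proper or not,
over the field with `Q` elements such that

* the eigenvalues of Frobenius on the `ℓ`-adic cohomology of `X` lie, up to powers, in the group
  generated by the `ρ k` and `q` (`Generated`);
* the Frobenius endomorphism of `X` satisfies on each of the Chow groups of `A × X` a nonzero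
  polynomial with rational coefficients whose complex roots have the same property. For instance
  this is so if the motive of `X` is built from finite-dimensional motives (Kimura) of smooth
  projective varieties which satisfy the first condition.

**For every `i` the statement `B^i(A × X)` (the cycle map is bijective onto the Galois invariants
of `H^(2 i)`, and the eigenvalue `1` of Frobenius is semisimple) is true if and only if the
statements `B^(i - k)(X)`, `0 ≤ k ≤ dim A`, are true.** The Chow groups of `A × X` and the Galois
invariants satisfy a Kunneth formula, with finitely many products of divisor classes on `A`. No
case of the conjectures is assumed.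

What is used of `A` are known theorems (`IsAbelian`): `H(A)` is generated by `H^1`, Frobenius is
diagonalizable on `H^1` (Weil), the theorem of Tate on divisors, and the nilpotence of
homologically trivial correspondences (Kimura). The theories relative to `X` are modelled by
`RelData`, with the formal properties in `IsTheory`: degrees, products with classes on `A`,
push-forward to `X`, the projection formula, the operation of the correspondences of `A` and of
the Frobenius endomorphism of `X`. The group of bidegree `(i, j)` is `H^i(X, j)`, resp. `H^i(A ×
X, j)`; the Frobenius endomorphism of `A × X` is the multiplication by `Q ^ j` on the Chow groups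
(`IsPure`) and on the Galois invariants of the `ℓ`-adic cohomology groups (`InvN`, `InvM`); the
generalized eigenvectors are in `GenN`, `GenM`.

The framework and the geometric part (`Q64.L.bReduces`) are those of the theorem
`AllCMTypesTimesOpen` of the library, which bounds the number of the exceptional slope types of CM
fields and asks that the eigenvalues of the other factor are unrelated to these fields. In other
theorems of the library the exceptional set of isogeny classes has a proportion `O (q ^ (-1 / 6)
log q)`, without a lower bound, for other factors with eigenvalues in a group of small rank over a
fixed number field. New here are the arbitrary eigenvalues, the uniformity in `p` and the exact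
order of magnitude of the exceptional set. The count is that of MP_557161_ag: the slopes bound the
exponents of the relations, up to proportionality, and each relation is a nontrivial algebraic
equation for the coefficients on almost all pencils of Weil polynomials, by the expansions of the
roots at infinity.
-/

set_option autoImplicit false

namespace Pool.Agent.Results.MP_81632f_ag.SharpExceptionalSet

open Pool.Agent.H857.SX Pool.Agent.H857.MX Pool.Agent.Q64.L

/-- **The exceptional set.** -/
theorem result {I : Type} [Fintype I] (g : I → ℕ) (hg : ∀ i, 0 < g i) (r D c : ℕ) (hD : 0 < D) :
    ∃ C : ℝ, 0 < C ∧ ∀ (p : ℕ) [Fact p.Prime] (a : ℕ), 0 < a →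
      ((families g p a).Finite ∧
        ∏ i, Real.sqrt ((p : ℝ) ^ a) ^ (g i * (g i + 1) / 2) ≤ C * (families g p a).ncard ∧
        (families g p a).ncard ≤ C * ∏ i, Real.sqrt ((p : ℝ) ^ a) ^ (g i * (g i + 1) / 2)) ∧
      ∀ (w : Fin r → ℕ) (ρ : Fin r → ℂ), (∀ k, w k < c ∧ IsWeilNumber p a D (w k) (ρ k)) →
        (({f ∈ families g p a | ¬ Independent f (p ^ a) ρ}.ncard : ℝ) ≤
            C * (rate g ((p : ℝ) ^ a) * (families g p a).ncard) ∧
          rate g ((p : ℝ) ^ a) * (families g p a).ncard ≤
            C * {f ∈ families g p a | ¬ Independent f (p ^ a) ρ}.ncard) ∧
        ∀ f ∈ families g p a, Independent f (p ^ a) ρ →
          BReduces (RootsIn (Generated (p ^ a) ρ)) (p ^ a) f :=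
  Pool.Agent.H857.MX.master g hg r D c hD (fun q f R => BReduces (RootsIn R) q f)
    fun _ _ _ hq _ h0 hR => bReduces hq (good_of_noRel hR h0)

end Pool.Agent.Results.MP_81632f_ag.SharpExceptionalSet
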